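import Pool.Agent.Y570.KP.Main
import Pool.Agent.Y570.KP.Complete
import Pool.Agent.Y570.KP.Shift
import Pool.Agent.Y570.LS.Fin
import Pool.Agent.TH41.BL.ASMH
import Pool.Agent.TH41.BL.DEL

/-!
# MP_0430e4_lc: the `k`-point semidefinite bounds have the exponent of Delsarte's linear program

A pseudo-code of level `k` is a real function `y` on sets of words which behaves like
`y(S) = Prob(S ⊆ C)` for a random code `C` with minimum distance `d`, as far as this can be seen on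
`k` words: `y(∅) = 1`, `y(S) = 0` if `S` has two words at distance less than `d`, all
pseudo-probabilities `Prob(D ⊆ C, E ∩ C = ∅)` with `|D| + |E| ≤ k` are nonnegative, and all
pseudo-moment matrices of the variables `1, [x ∈ C]` conditioned on `D ⊆ C, E ∩ C = ∅` with
`|D| + |E| ≤ k - 2` are positive semidefinite. The `k`-point bound is the largest pseudo-expectation
of `|C|`. For `k = 3` it is at least as strong as Schrijver's semidefinite bound.

For every fixed `k ≥ 2` and every `0 < δ < 1/2` the `k`-point bound for the minimum distance `⌈δ n⌉`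
has the exponent of Delsarte's linear programming bound. This remains true for the bounds which are
obtained from `k`-point bounds with weights (for instance for constant weight codes) and the
averaging argument of Elias and Bassalygo.
-/

set_option autoImplicit false

open Filter Topology

namespace Pool.Agent.Results.MP_0430e4_lc.KPointExponent

/-- `A(n,d)`: the largest size of a binary code of length `n` with minimum distance at least `d`. -/
noncomputable def A (n d : ℕ) : ℕ :=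
  sSup {m | ∃ C : Finset (Fin n → Bool),
    (∀ x ∈ C, ∀ y ∈ C, x ≠ y → d ≤ hammingDist x y) ∧ C.card = m}

/-- The pseudo-probability of `D ∪ S ⊆ C, E ∩ C = ∅`:
`∑_{F ⊆ E} (-1)^|F| y(D ∪ F ∪ S)`. -/
def pseudoProb {n : ℕ} (y : Finset (Fin n → Bool) → ℝ) (D E S : Finset (Fin n → Bool)) : ℝ :=
  ∑ F ∈ E.powerset, (-1) ^ F.card * y (D ∪ F ∪ S)

/-- Pseudo-codes of level `k`, length `n` and minimum distance `d`. The rows and columns of the
matrices are indexed by `∅` (that is, `none`) and the sets `{x}` (that is, `some x`). -/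
structure IsPseudoCode (k n d : ℕ) (y : Finset (Fin n → Bool) → ℝ) : Prop where
  one : y ∅ = 1
  dist : ∀ S : Finset (Fin n → Bool), ∀ u ∈ S, ∀ v ∈ S, u ≠ v → hammingDist u v < d → y S = 0
  nonneg : ∀ D E : Finset (Fin n → Bool), D.card + E.card ≤ k → 0 ≤ pseudoProb y D E ∅
  psd : ∀ D E : Finset (Fin n → Bool), D.card + E.card + 2 ≤ k →
    ∀ a : Option (Fin n → Bool) → ℝ,
      0 ≤ ∑ s, ∑ t, a s * a t * pseudoProb y D E (s.toFinset ∪ t.toFinset)

/-- The `k`-point bound: the largest value of `∑_x y({x})` for pseudo-codes of level `k`. -/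
noncomputable def kPoint (k n d : ℕ) : ℝ :=
  sSup {v : ℝ | ∃ y, IsPseudoCode k n d y ∧ v = ∑ x, y {x}}

/-- The weighted `k`-point bound: the largest value of `∑_x w(x) y({x})`. If `w` is the indicator
function of a set of words (for instance the words of one weight), it bounds the size of the codes
in this set. -/
noncomputable def kPointWeighted (k n d : ℕ) (w : (Fin n → Bool) → ℝ) : ℝ :=
  sSup {v : ℝ | ∃ y, IsPseudoCode k n d y ∧ v = ∑ x, w x * y {x}}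

/-- The binary Krawtchouk polynomial `K_j` of length `n` at `w`,
`∑_i (-1)^i (w choose i) (n - w choose j - i)`. -/
def krawtchouk (n j w : ℕ) : ℤ :=
  ∑ i ∈ Finset.range (j + 1), (-1) ^ i * (w.choose i : ℤ) * ((n - w).choose (j - i) : ℤ)

/-- `f(w) = ∑_{j ≤ n} l_j K_j(w)`. -/
noncomputable def combination (n : ℕ) (l : ℕ → ℝ) (w : ℕ) : ℝ :=
  ∑ j ∈ Finset.range (n + 1), l j * (krawtchouk n j w : ℝ)

/-- The feasible solutions of Delsarte's linear program for binary codes of length `n` and minimum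
distance `d`. Each of them gives the bound `A(n, d) ≤ f(0) / l_0`. -/
structure IsFeasible (n d : ℕ) (l : ℕ → ℝ) : Prop where
  nonneg : ∀ j, 0 ≤ l j
  pos : 0 < l 0
  nonpos : ∀ w : ℕ, d ≤ w → w ≤ n → combination n l w ≤ 0

/-- The value of Delsarte's linear program: the infimum of the bounds `f(0) / l_0`. -/
noncomputable def LP (n d : ℕ) : ℝ :=
  sInf {v : ℝ | ∃ l : ℕ → ℝ, IsFeasible n d l ∧ v = combination n l 0 / l 0}

/-- `η(x) = -x log₂ x`, with `η(0) = 0`. -/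
noncomputable def η (x : ℝ) : ℝ := -x * Real.logb 2 x

/-- The binary entropy function. -/
noncomputable def H (x : ℝ) : ℝ := η x + η (1 - x)

/-- `h(x) = H(1/2 - 1/2 √(1 - x))`. -/
noncomputable def h (x : ℝ) : ℝ := H (1 / 2 - 1 / 2 * √(1 - x))

/-- `α_k(e) = ∑_j sech²((2 j + k) e) / ∑_j sech((2 j + k) e)`, sums over all integers `j`. -/
noncomputable def α (k : ℤ) (e : ℝ) : ℝ :=
  (∑' j : ℤ, 1 / Real.cosh ((2 * j + k) * e) ^ 2) / ∑' j : ℤ, 1 / Real.cosh ((2 * j + k) * e)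

/-- `S(e) = h(sech² e) - h(sech² 2e) + h(sech² 3e) - …`. -/
noncomputable def S (e : ℝ) : ℝ := ∑' n : ℕ, (-1) ^ n * h (1 / Real.cosh ((n + 1) * e) ^ 2)

/-- The curve of the points `(δ, θ)`, `θ` the exponent of Delsarte's linear program for `δ`. -/
def Curve : Set (ℝ × ℝ) :=
  {p | (∃ e : ℝ, 0 < e ∧ p = ((1 - α 1 e) / 2, S e)) ∨
    (∃ e : ℝ, 0 < e ∧ p = ((1 - α 0 e) / 2, 1 - S e)) ∨ p = (1 / 2 - 1 / Real.pi, 1 / 2)}

open Pool.Agent.TH41.BL Pool.Agent.Y570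

lemma α_zero (e : ℝ) : α 0 e = A2s e / As e := by
  unfold α A2s As
  simp

lemma α_one (e : ℝ) : α 1 e = B2s e / Bs e := by
  unfold α B2s Bs
  simp

lemma S_eq (e : ℝ) : S e = Ss e := rfl

lemma feas_iff (n d : ℕ) (l : ℕ → ℝ) : IsFeasible n d l ↔ Feas n d l :=
  ⟨fun h => ⟨h.nonneg, h.pos, h.nonpos⟩, fun h => ⟨h.1, h.2.1, h.2.2⟩⟩

lemma comb_zero (n : ℕ) (l : ℕ → ℝ) : combination n l 0 = Vl n l := (FINf.Vl_eq n l).symm

lemma LP_eq (n d : ℕ) : LP n d = FINf.LPv n d := by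
  unfold LP FINf.LPv
  congr 1
  ext v
  simp only [Set.mem_ofPred_eq, feas_iff, comb_zero]

lemma pc_iff (k n d : ℕ) (y : Finset (Fin n → Bool) → ℝ) :
    IsPseudoCode k n d y ↔ KP.PC n d k y :=
  ⟨fun h => ⟨h.one, h.dist, h.nonneg, h.psd⟩, fun h => ⟨h.one, h.dist, h.nonneg, h.psd⟩⟩

lemma kw_eq (k n d : ℕ) (w : (Fin n → Bool) → ℝ) : kPointWeighted k n d w = KP.SW n d k w := by
  unfold kPointWeighted KP.SW
  simp only [pc_iff]

lemma kp_eq (k n d : ℕ) : kPoint k n d = KP.SW n d k (fun _ => 1) := by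
  unfold kPoint KP.SW
  simp only [pc_iff, one_mul]

lemma A_bdd (n d : ℕ) : BddAbove {m | ∃ C : Finset (Fin n → Bool),
    (∀ x ∈ C, ∀ y ∈ C, x ≠ y → d ≤ hammingDist x y) ∧ C.card = m} := by
  refine ⟨Fintype.card (Fin n → Bool), ?_⟩
  rintro k ⟨C, -, rfl⟩
  exact Finset.card_le_univ C

lemma A_mem (n d : ℕ) : ∃ C : Finset (Fin n → Bool),
    (∀ x ∈ C, ∀ y ∈ C, x ≠ y → d ≤ hammingDist x y) ∧ C.card = A n d := by
  have : A n d ∈ {k | ∃ C : Finset (Fin n → Bool),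
      (∀ x ∈ C, ∀ y ∈ C, x ≠ y → d ≤ hammingDist x y) ∧ C.card = k} :=
    Nat.sSup_mem ⟨0, ∅, by simp, by simp⟩ (A_bdd n d)
  exact this

lemma nonempty (k n d : ℕ) (w : (Fin n → Bool) → ℝ) :
    {v : ℝ | ∃ y, KP.PC n d k y ∧ v = ∑ x, w x * y {x}}.Nonempty :=
  ⟨_, _, KP.pc_code (n := n) (d := d) (k := k) ∅ (by simp), rfl⟩

lemma A_le (k n d : ℕ) (hk : 2 ≤ k) : (A n d : ℝ) ≤ kPoint k n d := by
  obtain ⟨C, hC, hcard⟩ := A_mem n d
  rw [kp_eq, ← hcard]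
  have h1 := KP.code_le (k := k) (by omega) C hC (w := fun _ => (1 : ℝ)) (fun _ => zero_le_one)
  simpa using h1

lemma anti (k n d : ℕ) (hk : 2 ≤ k) : kPoint (k + 1) n d ≤ kPoint k n d := by
  rw [kp_eq, kp_eq]
  unfold KP.SW
  refine csSup_le_csSup (KP.bdd_SW (by omega) (fun _ => zero_le_one)) (nonempty _ _ _ _) ?_
  rintro v ⟨y, hy, rfl⟩
  exact ⟨y, hy.mono (Nat.le_succ k), rfl⟩

lemma le_LP (k n d : ℕ) (hk : 2 ≤ k) (hd : 1 ≤ d) : kPoint k n d ≤ LP n d := by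
  rw [kp_eq, LP_eq]
  unfold KP.SW
  refine csSup_le (nonempty _ _ _ _) ?_
  rintro v ⟨y, hy, rfl⟩
  refine le_csInf ⟨_, _, DELf.feas_one hd, rfl⟩ ?_
  rintro v ⟨l, hl, rfl⟩
  simpa using hy.le_lp k7_chr hk hl

lemma full (k n d : ℕ) (hk : 2 ^ n ≤ k) (hk2 : 2 ≤ k) : kPoint k n d = A n d := by
  refine le_antisymm ?_ (A_le k n d hk2)
  rw [kp_eq]
  unfold KP.SW
  refine csSup_le (nonempty _ _ _ _) ?_
  rintro v ⟨y, hy, rfl⟩
  simpa using KP.full_level hk hy (A n d) fun C hC => le_csSup (A_bdd n d) ⟨C, hC, rfl⟩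

lemma weights (k n d : ℕ) (hk : 2 ≤ k) (w : (Fin n → Bool) → ℝ) (hw : ∀ x, 0 ≤ w x) :
    kPoint k n d * ∑ x, w x ≤ 2 ^ n * kPointWeighted k n d w := by
  rw [kp_eq, kw_eq]
  have hs : 0 ≤ ∑ x, w x := Finset.sum_nonneg fun x _ => hw x
  rcases hs.eq_or_lt with h0 | h0
  · rw [← h0, mul_zero]
    have h1 := KP.weight (k := k) (d := d) (by omega) hw
      (KP.pc_code (n := n) (d := d) (k := k) ∅ (by simp))
    refine le_trans (le_of_eq ?_) h1
    rw [← h0, mul_zero]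
  · obtain ⟨W, hW⟩ : ∃ W : ℝ, W = KP.SW n d k w := ⟨_, rfl⟩
    rw [← hW, ← le_div_iff₀ h0]
    unfold KP.SW
    refine csSup_le (nonempty _ _ _ _) ?_
    rintro v ⟨y, hy, rfl⟩
    rw [le_div_iff₀ h0, hW]
    simpa using KP.weight (k := k) (d := d) (by omega) hw hy

/-- the two bounds for the points of the curve -/
lemma point {δ θ : ℝ} (hp : (δ, θ) ∈ Curve) :
    0 < δ ∧ KP.Ke δ (θ * Real.log 2) ∧ LIMf.Be δ (θ * Real.log 2) ∧ UB δ θ := by
  have hpi := Real.pi_pos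
  obtain ⟨c1, c2, c3⟩ := k7_cv
  rcases hp with ⟨e, he, hp⟩ | ⟨e, he, hp⟩ | hp
  · obtain ⟨h2, h3⟩ := Prod.mk.inj hp
    subst h2 h3
    have h4 := CV7f.al_lt_one he (k := 1) (by norm_num)
    rw [CV7f.al_one] at h4
    rw [α_one, S_eq]
    have h5 : 0 < (1 - B2s e / Bs e) / 2 := by linarith
    exact ⟨h5, KP.ke_two k7_chr he h5.le, be_two he, c2 e he⟩
  · obtain ⟨h2, h3⟩ := Prod.mk.inj hp
    subst h2 h3
    have h4 := CV7f.al_lt_one he (k := 0) le_rfl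
    rw [CV7f.al_zero] at h4
    rw [α_zero, S_eq]
    exact ⟨by linarith, KP.ke_one k7_chr he, be_one he, c1 e he⟩
  · obtain ⟨h2, h3⟩ := Prod.mk.inj hp
    subst h2 h3
    refine ⟨?_, KP.ke_mid k7_chr, be_mid, c3⟩
    have : 1 / Real.pi < 1 / 2 :=
      one_div_lt_one_div_of_lt (by norm_num) (by linarith [Real.pi_gt_three])
    linarith

lemma kPoint_lower {δ θ : ℝ} (hp : (δ, θ) ∈ Curve) (k : ℕ) (hk : 2 ≤ k) (ε : ℝ) (hε : 0 < ε) :
    ∀ᶠ n : ℕ in atTop, (2 : ℝ) ^ ((θ - ε) * n) ≤ kPoint k n ⌈δ * n⌉₊ := by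
  obtain ⟨h0, h1, -, -⟩ := point hp
  have hlog : 0 < Real.log 2 := Real.log_pos (by norm_num)
  obtain ⟨n₀, hn₀⟩ := KP.lower (k := k) (by omega) h1 (ε * Real.log 2) (by positivity)
  filter_upwards [eventually_ge_atTop (max n₀ 1)] with n hn
  have hn1 : 1 ≤ n := le_trans (le_max_right _ _) hn
  have hnR : (0 : ℝ) < n := by exact_mod_cast hn1
  have hd1 : 1 ≤ ⌈δ * n⌉₊ := Nat.one_le_iff_ne_zero.2 (Nat.ceil_pos.2 (by positivity)).ne'
  have hd2 : (⌈δ * n⌉₊ : ℝ) ≤ δ * n + 1 := (Nat.ceil_lt_add_one (by positivity)).le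
  have h2 := hn₀ n (le_trans (le_max_left _ _) hn) _ hd1 hd2 (fun _ => 1) (fun _ => zero_le_one)
  rw [kp_eq]
  have h3 : ∑ _u : Fin n → Bool, (1 : ℝ) = 2 ^ n := by
    rw [Finset.sum_const, Finset.card_univ, Fintype.card_fun, Fintype.card_bool, Fintype.card_fin,
      nsmul_eq_mul, mul_one]
    push_cast
    rfl
  rw [h3, mul_comm] at h2
  have h4 := le_of_mul_le_mul_left h2 (by positivity : (0 : ℝ) < 2 ^ n)
  refine le_trans (le_of_eq ?_) h4
  rw [Real.rpow_def_of_pos (by norm_num)]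
  congr 1
  ring

lemma kPoint_pos (k n d : ℕ) (hk : 2 ≤ k) : (1 : ℝ) ≤ kPoint k n d := by
  refine le_trans ?_ (A_le k n d hk)
  have h1 : 1 ≤ A n d := by
    refine le_csSup (A_bdd n d) ⟨{fun _ => true}, ?_, by simp⟩
    intro x hx y hy hxy
    rw [Finset.mem_singleton] at hx hy
    exact absurd (hx.trans hy.symm) hxy
  exact_mod_cast h1

lemma LP_limit {δ θ : ℝ} (hp : (δ, θ) ∈ Curve) :
    Tendsto (fun n : ℕ => Real.logb 2 (LP n ⌈δ * n⌉₊) / n) atTop (𝓝 θ) := by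
  obtain ⟨h0, -, h1, h2⟩ := point hp
  simp_rw [LP_eq]
  exact FINf.limit h0 h1 h2

lemma limit {δ θ : ℝ} (hp : (δ, θ) ∈ Curve) (k : ℕ) (hk : 2 ≤ k) :
    Tendsto (fun n : ℕ => Real.logb 2 (kPoint k n ⌈δ * n⌉₊) / n) atTop (𝓝 θ) := by
  obtain ⟨h0, -, -, -⟩ := point hp
  refine tendsto_order.2 ⟨fun a ha => ?_, fun a ha => ?_⟩
  · obtain ⟨ε, hε⟩ : ∃ ε : ℝ, ε = (θ - a) / 2 := ⟨_, rfl⟩
    have hε0 : 0 < ε := by rw [hε]; linarith
    filter_upwards [kPoint_lower hp k hk ε hε0, eventually_ge_atTop 1] with n hn hn1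
    have hnR : (0 : ℝ) < n := by exact_mod_cast hn1
    have hpos : (0 : ℝ) < kPoint k n ⌈δ * n⌉₊ := lt_of_lt_of_le one_pos (kPoint_pos k n _ hk)
    have h1 : (θ - ε) * n ≤ Real.logb 2 (kPoint k n ⌈δ * n⌉₊) := by
      rwa [Real.le_logb_iff_rpow_le (by norm_num) hpos]
    have h2 : θ - ε ≤ Real.logb 2 (kPoint k n ⌈δ * n⌉₊) / n := by rwa [le_div_iff₀ hnR]
    have h3 : a < θ - ε := by rw [hε]; linarith
    exact h3.trans_le h2
  · have h1 := (tendsto_order.1 (LP_limit hp)).2 a ha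
    filter_upwards [h1, eventually_ge_atTop 1] with n hn hn1
    have hnR : (0 : ℝ) < n := by exact_mod_cast hn1
    have hd1 : 1 ≤ ⌈δ * n⌉₊ := Nat.one_le_iff_ne_zero.2 (Nat.ceil_pos.2 (by positivity)).ne'
    refine lt_of_le_of_lt ?_ hn
    refine div_le_div_of_nonneg_right ?_ hnR.le
    exact Real.logb_le_logb_of_le (by norm_num)
      (lt_of_lt_of_le one_pos (kPoint_pos k n _ hk)) (le_LP k n _ hk hd1)

lemma on_curve (δ : ℝ) (h0 : 0 < δ) (h1 : δ < 1 / 2) : ∃ θ, (δ, θ) ∈ Curve := by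
  have hpi := Real.pi_pos
  rcases lt_trichotomy δ (1 / 2 - 1 / Real.pi) with h | h | h
  · obtain ⟨e, he, hv⟩ := Pool.Agent.TH753.FF.exists_zero (y := 1 - 2 * δ)
      (by rw [show 2 / Real.pi = 2 * (1 / Real.pi) by ring]; linarith) (by linarith)
    refine ⟨1 - S e, Or.inr (Or.inl ⟨e, he, ?_⟩)⟩
    rw [α_zero, ← CV7f.al_zero, hv]
    congr 1
    ring
  · exact ⟨1 / 2, Or.inr (Or.inr (by rw [h]))⟩
  · obtain ⟨e, he, hv⟩ := Pool.Agent.TH753.FF.exists_one (y := 1 - 2 * δ) (by linarith)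
      (by rw [show 2 / Real.pi = 2 * (1 / Real.pi) by ring]; linarith)
    refine ⟨S e, Or.inl ⟨e, he, ?_⟩⟩
    rw [α_one, ← CV7f.al_one, hv]
    congr 1
    ring

lemma lt_half {δ θ : ℝ} (hp : (δ, θ) ∈ Curve) : δ < 1 / 2 := by
  have hpi := Real.pi_pos
  rcases hp with ⟨e, he, hp⟩ | ⟨e, he, hp⟩ | hp
  · obtain ⟨h2, h3⟩ := Prod.mk.inj hp
    subst h2 h3
    have h4 := CV7f.al_pos he 1
    rw [CV7f.al_one] at h4
    rw [α_one]
    linarith
  · obtain ⟨h2, h3⟩ := Prod.mk.inj hp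
    subst h2 h3
    have h4 := CV7f.al_pos he 0
    rw [CV7f.al_zero] at h4
    rw [α_zero]
    linarith
  · obtain ⟨h2, h3⟩ := Prod.mk.inj hp
    subst h2 h3
    have : 0 < 1 / Real.pi := by positivity
    linarith

lemma H_eq (x : ℝ) : H x = Real.binEntropy x / Real.log 2 := by
  unfold H η Real.binEntropy Real.logb
  rw [Real.log_inv, Real.log_inv]
  ring

/-- the exponent is larger than the one of Gilbert and Varshamov -/
lemma gv {δ θ : ℝ} (hp : (δ, θ) ∈ Curve) :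
    1 - H δ + (H (1 / 2 - √(δ * (1 - δ))) - (1 - H δ)) / 2 ≤ θ ∧ 1 - H δ < θ := by
  obtain ⟨h0, -, -, -⟩ := point hp
  have h1 := lt_half hp
  have hl2 : 0 < Real.log 2 := Real.log_pos (by norm_num)
  have hgain := LS.gain_pos h0 h1
  have key : ∀ γ : ℝ, γ * Real.log 2 <
      (Real.binEntropy (1 / 2 - √(δ * (1 - δ))) + Real.binEntropy δ - Real.log 2) / 2 →
      1 - H δ + γ ≤ θ := by
    intro γ hγ
    obtain ⟨c, hc, n₀, hn₀⟩ := LS.SO_lower k7_chr h0 h1 hγ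
    obtain ⟨n₁, hn₁⟩ := exists_nat_ge ((2 / c) ^ 2)
    refine ge_of_tendsto (LP_limit hp) ?_
    filter_upwards [eventually_ge_atTop (max (max n₀ n₁) 1)] with n hn
    have hn1 : 1 ≤ n := le_trans (le_max_right _ _) hn
    have hn0 : n₀ ≤ n := le_trans (le_max_left _ _) (le_trans (le_max_left _ _) hn)
    have hn2 : n₁ ≤ n := le_trans (le_max_right _ _) (le_trans (le_max_left _ _) hn)
    have hnR : (0 : ℝ) < n := by exact_mod_cast hn1
    have hc2 : 2 ≤ c * √n := by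
      have e1 : (2 / c) ^ 2 ≤ (n : ℝ) := hn₁.trans (by exact_mod_cast hn2)
      have e2 : 2 / c ≤ √n := Real.le_sqrt_of_sq_le e1
      rwa [div_le_iff₀' hc] at e2
    have h2 := hn₀ n hn0 2 1 le_rfl (by exact_mod_cast hc2) (by push_cast; linarith)
    have hd1 : 1 ≤ ⌈δ * n⌉₊ := Nat.one_le_iff_ne_zero.2 (Nat.ceil_pos.2 (by positivity)).ne'
    have h3 : LS.SO 2 1 n ⌈δ * n⌉₊ ≤ LP n ⌈δ * n⌉₊ := by
      refine le_trans ?_ (le_LP 2 n _ le_rfl hd1)
      rw [kp_eq]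
      unfold LS.SO KP.SW
      refine csSup_le_csSup (KP.bdd_SW (by omega) (fun _ => zero_le_one))
        (LS.nonempty _ _ _ _) ?_
      rintro v ⟨y, hy, rfl⟩
      exact ⟨y, hy.to_kp le_rfl, by simp⟩
    have h4 : (2 : ℝ) ^ ((1 - H δ + γ) * n) ≤ LP n ⌈δ * n⌉₊ := by
      refine le_trans (le_of_eq ?_) (h2.trans h3)
      rw [H_eq]
      push_cast
      rw [div_one]
    have hpos : (0 : ℝ) < LP n ⌈δ * n⌉₊ := lt_of_lt_of_le (by positivity) h4
    rw [le_div_iff₀ hnR, Real.le_logb_iff_rpow_le (by norm_num) hpos]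
    exact h4
  have hg : (H (1 / 2 - √(δ * (1 - δ))) - (1 - H δ)) / 2 = (Real.binEntropy
      (1 / 2 - √(δ * (1 - δ))) + Real.binEntropy δ - Real.log 2) / 2 / Real.log 2 := by
    rw [H_eq, H_eq]
    field_simp
    ring
  have h5 : 1 - H δ + (H (1 / 2 - √(δ * (1 - δ))) - (1 - H δ)) / 2 ≤ θ := by
    refine le_of_forall_pos_le_add fun ε hε => ?_
    have h6 := key ((H (1 / 2 - √(δ * (1 - δ))) - (1 - H δ)) / 2 - ε) (by
      rw [hg, sub_mul, div_mul_cancel₀ _ hl2.ne']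
      have : 0 < ε * Real.log 2 := by positivity
      linarith)
    linarith
  refine ⟨h5, ?_⟩
  have h6 : 0 < (H (1 / 2 - √(δ * (1 - δ))) - (1 - H δ)) / 2 := by
    rw [hg]
    apply div_pos _ hl2
    linarith
  linarith

/-- **The `k`-point semidefinite bounds have the exponent of Delsarte's linear program.** -/
theorem result :
    (∀ k n d : ℕ, 2 ≤ k → (A n d : ℝ) ≤ kPoint k n d ∧ kPoint (k + 1) n d ≤ kPoint k n d) ∧
    (∀ k n d : ℕ, 2 ≤ k → 1 ≤ d → kPoint k n d ≤ LP n d) ∧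
    (∀ k n d : ℕ, 2 ≤ k → 2 ^ n ≤ k → kPoint k n d = A n d) ∧
    (∀ (k n d : ℕ) (w : (Fin n → Bool) → ℝ), 2 ≤ k → (∀ x, 0 ≤ w x) →
      kPoint k n d * ∑ x, w x ≤ 2 ^ n * kPointWeighted k n d w) ∧
    (∀ δ : ℝ, 0 < δ → δ < 1 / 2 → ∃ θ, (δ, θ) ∈ Curve) ∧
    ∀ δ θ : ℝ, (δ, θ) ∈ Curve → 1 - H δ < θ ∧
      Tendsto (fun n : ℕ => Real.logb 2 (LP n ⌈δ * n⌉₊) / n) atTop (𝓝 θ) ∧
      ∀ k : ℕ, 2 ≤ k →
        Tendsto (fun n : ℕ => Real.logb 2 (kPoint k n ⌈δ * n⌉₊) / n) atTop (𝓝 θ) :=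
  ⟨fun k n d hk => ⟨A_le k n d hk, anti k n d hk⟩, fun k n d hk hd => le_LP k n d hk hd,
    fun k n d hk hk2 => full k n d hk2 hk, fun k n d w hk hw => weights k n d hk w hw, on_curve,
    fun _ _ hp => ⟨(gv hp).2, LP_limit hp, fun k hk => limit hp k hk⟩⟩

end Pool.Agent.Results.MP_0430e4_lc.KPointExponent
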