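import Mathlib
import Pool.Agent.N381.UG.Asym2

/-!
MP_0430e4_lc (helper381).  The complete linear programming hierarchy for binary linear codes
(Coregliano, Jeronimo and Jones; the same programs, with a symmetrisation, are those of Loyfer and
Linial) stays exponentially above the Gilbert-Varshamov bound, by an amount which does not depend on
the level, for every level up to a constant times the length `n`; level `n` is exact.  Level `ℓ`
proves `|C| ^ ℓ ≤ value`, and its value at relative distance `δ` is at least
`2 ^ ((1 - H(δ) + c) ℓ n)` for all `ℓ ≤ ε n`, with constants `c, ε > 0` depending on `δ` only.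

The construction is a pseudo-code: random linear maps of rank `K`, conditioned on avoiding the ball
through an explicit function with no large Fourier coefficient.  The Fourier transform of the
product over all combinations of a tuple is bounded by the exponential gain to the power of the rank
of the frequency.  Each set of combinations has a dense part, where intersections of balls at
distance give the gain, and a sparse part, where the Fourier transform does; the sums over the
doubly exponentially many sets are controlled by a recursion over the lattice of subspaces, which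
bounds the signed sums over the dense sets by `2 ^ O(ℓ)` to the power of the dimension, and by small
witnesses for density.
-/

set_option autoImplicit false

namespace Pool.Agent.Results.MP_0430e4_lc.LinearLevels

open Finset Filter

/-- The binary entropy function. -/
noncomputable def H (x : ℝ) : ℝ := -x * Real.logb 2 x - (1 - x) * Real.logb 2 (1 - x)

/-- `a` is a feasible solution of level `ℓ` of the linear programming hierarchy for binary linear
codes of length `n` and minimum distance at least `d`: a nonnegative function of `ℓ`-tuples of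
words with `a 0 = 1`, which vanishes at each tuple one of whose `𝔽₂`-linear combinations has
weight in `(0, d)`, and whose Fourier transform on `(𝔽₂ ^ n) ^ ℓ` is nonnegative. -/
def IsFeasible (ℓ n d : ℕ) (a : (Fin ℓ → Fin n → ZMod 2) → ℝ) : Prop :=
  a 0 = 1 ∧ (∀ X, 0 ≤ a X) ∧
  (∀ X, (∃ c : Fin ℓ → ZMod 2, 0 < hammingNorm (∑ i, c i • X i) ∧
    hammingNorm (∑ i, c i • X i) < d) → a X = 0) ∧
  ∀ Y : Fin ℓ → Fin n → ZMod 2,
    0 ≤ ∑ X, a X * (if ∑ i, ∑ j, X i j * Y i j = 0 then 1 else -1)

lemma feasible_of {ℓ n d : ℕ} {a : Matrix (Fin ℓ) (Fin n) (ZMod 2) → ℝ}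
    (h : N381.LH.Fs ℓ n d a) : IsFeasible ℓ n d a := by
  refine ⟨h.zero, h.nonneg, ?_, ?_⟩
  · rintro X ⟨c, h0, h1⟩
    have e : Matrix.vecMul c (Matrix.of X) = ∑ i, c i • X i := Matrix.vecMul_eq_sum _ _
    refine h.dist X c ?_ ?_
    · change 0 < hammingNorm (Matrix.vecMul c (Matrix.of X))
      rw [e]
      exact h0
    · change hammingNorm (Matrix.vecMul c (Matrix.of X)) < d
      rw [e]
      exact h1
  · intro Y
    exact h.dual Y

/-- **Levels up to a constant times the length of the hierarchy are exponentially above
Gilbert-Varshamov, by an amount which does not depend on the level.** For each `δ ∈ (0, 1/2)` there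
are `c, ε > 0` such that for each large `n` and each level `1 ≤ ℓ ≤ ε n` the level `ℓ` program at
length `n` and distance `⌈δ n⌉` has a feasible solution of total mass at least
`2 ^ ((1 - H(δ) + c) ℓ n)`. -/
theorem result (δ : ℝ) (h0 : 0 < δ) (h1 : δ < 1 / 2) :
    ∃ c ε : ℝ, 0 < c ∧ 0 < ε ∧ ∀ᶠ n : ℕ in atTop, ∀ ℓ : ℕ, 1 ≤ ℓ → (ℓ : ℝ) ≤ ε * n →
      ∃ a : (Fin ℓ → Fin n → ZMod 2) → ℝ, IsFeasible ℓ n ⌈δ * n⌉₊ a ∧
        (2 : ℝ) ^ ((1 - H δ + c) * (ℓ * n)) ≤ ∑ X, a X := by
  obtain ⟨c, ε, hc, hε, hlow⟩ := N381.UG.lower2 h0 h1
  refine ⟨c, ε, hc, hε, ?_⟩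
  have hH : Real.binEntropy δ / Real.log 2 = H δ := by
    unfold Real.binEntropy H Real.logb
    rw [Real.log_inv, Real.log_inv]
    ring
  filter_upwards [hlow] with n hn ℓ hℓ hle
  obtain ⟨a, ha, hval⟩ := hn ℓ hℓ hle
  rw [hH] at hval
  exact ⟨a, feasible_of ha, hval⟩

end Pool.Agent.Results.MP_0430e4_lc.LinearLevels
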