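import Pool.Agent.N474.MD.Asym

/-!
# Binary codes at the Gilbert-Varshamov rate: middle distances

For `0 < δ < 1/2` there are `η, c > 0` such that in every binary code of large length `n` and
minimum distance at least `δ n`, the number of codewords which have at most `2^(c n)` codewords at
distances strictly between `(1 + η) δ n` and `(2 δ (1 - δ) - η) n` is at most
`2^((1 - H(δ) - c) n)`. So in a code whose size reaches the Gilbert-Varshamov size
`2^((1 - H(δ)) n)`, all but a fraction `2^(-c n)` of the codewords have exponentially many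
codewords in this range, strictly between the minimum distance and the Elias distance.
-/

namespace Pool.Agent.Results.MP_0430e4_lc.MiddleDistances

/-- The binary entropy function `H₂(x) = - x log₂ x - (1 - x) log₂ (1 - x)`. -/
noncomputable def H (x : ℝ) : ℝ := -x * Real.logb 2 x - (1 - x) * Real.logb 2 (1 - x)

open Classical in
/-- The words `x` of `C` with at most `κ` words `y` of `C` at Hamming distance strictly between
`a` and `b`. -/
noncomputable def fewMid {n : ℕ} (C : Finset (Fin n → Bool)) (a b κ : ℝ) :
    Finset (Fin n → Bool) :=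
  C.filter (fun x => ((C.filter (fun y => a < (hammingDist x y : ℝ) ∧
    (hammingDist x y : ℝ) < b)).card : ℝ) ≤ κ)

/-- For `0 < δ < 1/2` there are `η, c > 0` with `(1 + η) δ < 2 δ (1 - δ) - η` such that for all
large `n` and every binary code `C` of length `n` whose distinct words are at distance at least
`δ n`: at most `2^((1 - H(δ) - c) n)` words of `C` have at most `2^(c n)` words of `C` at distance
strictly between `(1 + η) δ n` and `(2 δ (1 - δ) - η) n`. -/
theorem result : ∀ δ : ℝ, 0 < δ → δ < 1 / 2 →
    ∃ η c : ℝ, 0 < η ∧ 0 < c ∧ (1 + η) * δ < 2 * δ * (1 - δ) - η ∧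
      ∃ n0 : ℕ, ∀ n ≥ n0, ∀ C : Finset (Fin n → Bool),
        (∀ x ∈ C, ∀ y ∈ C, x ≠ y → δ * n ≤ hammingDist x y) →
        ((fewMid C ((1 + η) * δ * n) ((2 * δ * (1 - δ) - η) * n) ((2 : ℝ) ^ (c * n))).card : ℝ)
          ≤ (2 : ℝ) ^ ((1 - H δ - c) * n) := by
  intro δ h0 h1
  obtain ⟨η, c, h2, h3, h4, h5⟩ := Pool.Agent.N474.MD.middle h0 h1
  obtain ⟨n0, hn0⟩ := Filter.eventually_atTop.1 h5
  exact ⟨η, c, h2, h3, h4, n0, hn0⟩

end Pool.Agent.Results.MP_0430e4_lc.MiddleDistances
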