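import Pool.Agent.N549.DC.Cube3
import Pool.Agent.N470.AB.Lensc
import Pool.Agent.N896.DC.PairC
import Pool.Agent.N624.DC.Mom2
import Pool.Agent.N767.DC.VAR
import Pool.Agent.N344.AB.Canx
import Pool.Agent.N327.DC.Entq

/-!
# Random binary codes beyond the bound of Gilbert and Varshamov

Binary codes of length `n` in which distinct words have distance larger than `D`, where `D / n` is
close to `δ`; `V` is the number of words of a ball of radius `D`. The number of these codes is
determined up to size `(X(δ) - ε) n 2^n / V`, with exponentially small errors in the exponent, and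
the distance distribution of a random code of this size is the binomial distribution restricted to
the distances larger than `D`, up to exponentially small errors.
-/

open Finset

namespace Pool.Agent.Results.MP_0430e4_lc.RandomCodes

/-- The binary words of length `n`. -/
abbrev Word (n : ℕ) : Type := Fin n → Bool

/-- The codes in which distinct words have distance larger than `D`. -/
def IsCode {n : ℕ} (D : ℕ) (C : Finset (Word n)) : Prop :=
  ∀ x ∈ C, ∀ y ∈ C, x ≠ y → D < hammingDist x y

/-- The number of words at distance at most `D` from a word. -/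
def ball (n D : ℕ) : ℕ := ∑ j ∈ range (D + 1), n.choose j

open scoped Classical in
/-- The number of the codes with `k` words. -/
noncomputable def numCodes (n D k : ℕ) : ℕ := #{C : Finset (Word n) | #C = k ∧ IsCode D C}

open scoped Classical in
/-- The partition function: the sum of `z ^ #C` over all codes. -/
noncomputable def Z (n D : ℕ) (z : ℝ) : ℝ := ∑ C : Finset (Word n) with IsCode D C, z ^ #C

open scoped Classical in
/-- The mean of `f` over the random code which is `C` with probability `z ^ #C / Z`. -/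
noncomputable def mean (n D : ℕ) (z : ℝ) (f : Finset (Word n) → ℝ) : ℝ :=
  (∑ C : Finset (Word n) with IsCode D C, z ^ #C * f C) / Z n D z

/-- The mean size of the random code. -/
noncomputable def meanSize (n D : ℕ) (z : ℝ) : ℝ := mean n D z fun C => (#C : ℝ)

open scoped Classical in
/-- The probability that the random code contains `x` and `y`. -/
noncomputable def prob (n D : ℕ) (z : ℝ) (x y : Word n) : ℝ :=
  mean n D z fun C => if x ∈ C ∧ y ∈ C then 1 else 0

/-- The mean number of the pairs of words of the random code which belong to `B`. -/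
noncomputable def meanPairs (n D : ℕ) (z : ℝ) (B : Finset (Word n × Word n)) : ℝ :=
  mean n D z fun C => (#((C ×ˢ C) ∩ B) : ℝ)

/-- Half the difference of the exponents of the bounds of McEliece, Rodemich, Rumsey, Welch and of
Gilbert, Varshamov. -/
noncomputable def XM (δ : ℝ) : ℝ :=
  (Real.binEntropy δ + Real.binEntropy (1 / 2 - √(δ * (1 - δ))) - Real.log 2) / 2

/-- The exponent of the ratio of a ball of radius `D` and of the intersection of two such balls with
centres at distance `D`. -/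
noncomputable def XV (δ : ℝ) : ℝ :=
  Real.binEntropy δ - δ * Real.log 2 - (1 - δ) * Real.binEntropy (δ / (2 * (1 - δ)))

/-- The window. -/
noncomputable def X (δ : ℝ) : ℝ := min (XM δ) (XV δ)

theorem XM_eq (δ : ℝ) : Pool.Agent.N549.CG.XM δ = XM δ := rfl

theorem X_eq (δ : ℝ) : Pool.Agent.N549.CG.XC δ = X δ := rfl

theorem XV_pos (δ : ℝ) (h : 0 < δ) (h1 : δ < 1 / 2) : 0 < XV δ := by
  have hq : 0 < δ / (2 * (1 - δ)) := by
    have : 0 < 1 - δ := by linarith
    positivity
  have hq1 : δ / (2 * (1 - δ)) < 1 / 2 := by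
    rw [div_lt_iff₀ (by linarith)]
    linarith
  have h2 := Real.strictConcave_binEntropy.2 (x := 2⁻¹) (y := δ / (2 * (1 - δ)))
    ⟨by norm_num, by norm_num⟩ ⟨hq.le, by linarith⟩ (by
      intro h'
      rw [← h'] at hq1
      norm_num at hq1) h (by linarith : 0 < 1 - δ) (by ring)
  simp only [smul_eq_mul, Real.binEntropy_two_inv] at h2
  have e : δ * 2⁻¹ + (1 - δ) * (δ / (2 * (1 - δ))) = δ := by
    have : 1 - δ ≠ 0 := by linarith
    field_simp
    ring
  rw [e] at h2
  unfold XV
  linarith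

theorem X_pos (hE : Pool.Agent.N549.AB.S_ENTQ) (δ : ℝ) (h : 0 < δ) (h1 : δ < 1 / 2) :
    0 < X δ := by
  refine lt_min ?_ (XV_pos δ h h1)
  have := hE δ h h1
  unfold XM
  linarith

section aux

open Pool.Agent.N549.CG Pool.Agent.N549.AB

variable {n D : ℕ}

theorem sum_card (f : ℕ → ℝ) : ∑ C : Finset (Word n) with
    (∀ a ∈ C, ∀ b ∈ C, a ≠ b → D < hammingDist a b), f #C =
      ∑ k ∈ range (2 ^ n + 1), (codes n D k : ℝ) * f k := by
  classical
  rw [← Finset.sum_fiberwise_of_maps_to (g := fun C : Finset (Word n) => #C)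
    (t := range (2 ^ n + 1))]
  · refine Finset.sum_congr rfl fun k _ => ?_
    rw [Finset.filter_filter]
    have h1 : ∀ C ∈ (univ.filter fun C : Finset (Word n) =>
        (∀ a ∈ C, ∀ b ∈ C, a ≠ b → D < hammingDist a b) ∧ #C = k), f #C = f k := by
      intro C hC
      rw [(mem_filter.1 hC).2.2]
    rw [Finset.sum_congr rfl h1, Finset.sum_const, nsmul_eq_mul]
    congr 2
    unfold codes
    congr 1
    ext C
    simp only [mem_filter, mem_univ, true_and]
    exact and_comm
  · intro C _
    have h1 : #C ≤ Fintype.card (Word n) := Finset.card_le_univ C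
    have h2 : Fintype.card (Word n) = 2 ^ n := by simp [Word]
    rw [mem_range]
    omega

theorem num_eq (k : ℕ) : numCodes n D k = codes n D k := by
  unfold numCodes codes
  congr 1
  ext C
  simp only [mem_filter, mem_univ, true_and]
  rfl

theorem Z_eq (z : ℝ) : Z n D z = ZC n D z := by
  classical
  unfold Z ZC
  rw [← sum_card (n := n) (D := D) (fun k => z ^ k)]
  refine Finset.sum_congr ?_ fun C _ => rfl
  ext C
  simp only [mem_filter, mem_univ, true_and]
  rfl

theorem size_eq (z : ℝ) : meanSize n D z = NC n D z := by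
  classical
  unfold meanSize mean NC
  rw [Z_eq]
  congr 1
  have h := sum_card (n := n) (D := D) (fun k => z ^ k * (k : ℝ))
  have e : ∑ k ∈ range (2 ^ n + 1), (k : ℝ) * ((codes n D k : ℝ) * z ^ k) =
      ∑ k ∈ range (2 ^ n + 1), (codes n D k : ℝ) * (z ^ k * (k : ℝ)) :=
    Finset.sum_congr rfl fun k _ => by ring
  rw [e, ← h]
  refine Finset.sum_congr ?_ fun C _ => rfl
  ext C
  simp only [mem_filter, mem_univ, true_and]
  rfl

theorem prob_eq (z : ℝ) (x y : Word n) : prob n D z x y = PC n D z x y / ZC n D z := by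
  classical
  unfold prob mean
  rw [Z_eq]
  congr 1
  unfold PC
  have h1 : ∀ (C : Finset (Word n)) (i : Decidable (x ∈ C ∧ y ∈ C)), z ^ #C *
      (@ite ℝ (x ∈ C ∧ y ∈ C) i 1 0) = if x ∈ C ∧ y ∈ C then z ^ #C else 0 := by
    intro C i
    split_ifs <;> simp
  simp only [h1]
  rw [← Finset.sum_filter, Finset.filter_filter]
  refine Finset.sum_congr ?_ fun C _ => rfl
  ext C
  simp only [mem_filter, mem_univ, true_and]
  rfl

theorem pairs_eq (z : ℝ) (B : Finset (Word n × Word n)) :
    meanPairs n D z B = (∑ p ∈ B, PC n D z p.1 p.2) / ZC n D z := by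
  classical
  unfold meanPairs mean
  rw [Z_eq]
  congr 1
  have h1 : ∀ C : Finset (Word n), (#((C ×ˢ C) ∩ B) : ℝ) =
      ∑ p ∈ B, if p.1 ∈ C ∧ p.2 ∈ C then (1 : ℝ) else 0 := by
    intro C
    rw [Finset.sum_boole]
    congr 2
    ext p
    simp only [mem_inter, mem_product, mem_filter]
    exact and_comm
  simp only [h1, Finset.mul_sum]
  rw [Finset.sum_comm]
  refine Finset.sum_congr rfl fun p _ => ?_
  unfold PC
  have h2 : ∀ C : Finset (Word n), z ^ #C * (if p.1 ∈ C ∧ p.2 ∈ C then (1 : ℝ) else 0) =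
      if p.1 ∈ C ∧ p.2 ∈ C then z ^ #C else 0 := by
    intro C
    split_ifs <;> simp
  simp only [h2]
  rw [← Finset.sum_filter, Finset.filter_filter]
  refine Finset.sum_congr ?_ fun C _ => rfl
  ext C
  simp only [mem_filter, mem_univ, true_and]
  rfl

end aux

open Pool.Agent.N549.AB in
theorem result : ∀ δ ε : ℝ, 0 < δ → δ < 1 / 2 → 0 < ε → 0 < X δ ∧
    ∃ (a K η : ℝ) (n₀ : ℕ), 0 < a ∧ 0 < K ∧ 0 < η ∧ ∀ n D : ℕ, n₀ ≤ n → Even D →
      |(D : ℝ) - δ * n| ≤ η * n →
      -- (1) the equation of state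
      (∀ s : ℝ, 0 < s → s ≤ (X δ - ε) * n →
        |(ball n D : ℝ) / 2 ^ n * meanSize n D (s * Real.exp s / ball n D) - s| ≤
          Real.exp (-(a * n)) * s ∧
        |(ball n D : ℝ) / 2 ^ n * Real.log (Z n D (s * Real.exp s / ball n D)) -
          (s + s ^ 2 / 2)| ≤ Real.exp (-(a * n)) * s) ∧
      -- (2) the number of codes
      (∀ k : ℕ, Real.exp (-(a * n)) ≤ k * ((ball n D : ℝ) / 2 ^ n) →
        k * ((ball n D : ℝ) / 2 ^ n) ≤ (X δ - ε) * n →
        0 < numCodes n D k ∧
        |Real.log ((k.factorial : ℝ) * numCodes n D k / (2 ^ n) ^ k) +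
          k ^ 2 * ((ball n D : ℝ) / 2 ^ n) / 2| ≤
            Real.exp (-(a * n)) * (k ^ 2 * ((ball n D : ℝ) / 2 ^ n))) ∧
      -- (3) larger codes are rare
      (∀ k : ℕ, K * n ≤ k * ((ball n D : ℝ) / 2 ^ n) →
        (numCodes n D k : ℝ) ≤ (2 ^ n) ^ k / k.factorial * Real.exp (-((XM δ - ε) * n * k))) ∧
      -- (4) the mean size at every activity
      (∀ s : ℝ, 0 < s →
        (ball n D : ℝ) / 2 ^ n * meanSize n D (s * Real.exp s / ball n D) ≤
          (s + 2) ^ 2 / 2 + 3 * (s + 1) * Real.exp (s - (XM δ - ε) * n)) ∧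
      -- (5) the pair correlations, lower bound
      (∀ s : ℝ, 0 < s → s ≤ (X δ - ε) * n → ∀ x y : Word n, D < hammingDist x y →
        (1 - Real.exp (-(a * n))) * (prob n D (s * Real.exp s / ball n D) x x *
          prob n D (s * Real.exp s / ball n D) y y) ≤
            prob n D (s * Real.exp s / ball n D) x y) ∧
      -- (6) the pair correlations, upper bound
      (∀ s : ℝ, 0 < s → s ≤ (X δ / 3 - ε) * n → ∀ x y : Word n, D < hammingDist x y →
        prob n D (s * Real.exp s / ball n D) x y ≤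
        (1 + Real.exp (-(a * n))) * (prob n D (s * Real.exp s / ball n D) x x *
          prob n D (s * Real.exp s / ball n D) y y)) ∧
      -- (7) the pair distribution in total variation
      ∀ s : ℝ, Real.exp (-(a * n)) ≤ s → s ≤ (X δ - ε) * n →
        ∀ B : Finset (Word n × Word n), (∀ p ∈ B, D < hammingDist p.1 p.2) →
          |meanPairs n D (s * Real.exp s / ball n D) B -
            meanSize n D (s * Real.exp s / ball n D) ^ 2 * (#B / 4 ^ n)| ≤
            Real.exp (-(a * n)) * meanSize n D (s * Real.exp s / ball n D) ^ 2 := by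
  intro δ ε hδ hδ1 hε
  refine ⟨X_pos Pool.Agent.N327.DC.entq δ hδ hδ1, ?_⟩
  have hX := Pool.Agent.N344.AB.canx
  have hP : S_PAIRC := Pool.Agent.N896.DC.PairC.pairc
  have hL : S_LENSC := Pool.Agent.N470.AB.lensc
  obtain ⟨a₁, K, η₁, n₁, ha₁, hK, hη₁, h1⟩ := Pool.Agent.N549.CG.mainC hX δ ε hδ hδ1 hε
  obtain ⟨a₂, η₂, n₂, ha₂, hη₂, h2⟩ := Pool.Agent.N549.DC.mainD hL hP δ ε hδ hδ1 hε
  obtain ⟨a₃, η₃, n₃, ha₃, hη₃, h3⟩ := Pool.Agent.N549.DC.tvC hX Pool.Agent.N767.DC.var
    Pool.Agent.N624.DC.mom2 hL hP δ ε hδ hδ1 hε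
  obtain ⟨η₄, n₄, hη₄, h4⟩ := Pool.Agent.N549.DC.upC δ ε hδ hδ1 hε
  set a := min a₁ (min a₂ a₃) with ha
  refine ⟨a, K, min (min η₁ (min η₂ η₃)) η₄, max (max n₁ (max n₂ n₃)) n₄,
    lt_min ha₁ (lt_min ha₂ ha₃), hK,
    lt_min (lt_min hη₁ (lt_min hη₂ hη₃)) hη₄, fun n D hn' hD hDn' => ?_⟩
  have hn0 : (0 : ℝ) ≤ n := Nat.cast_nonneg n
  have hn : max n₁ (max n₂ n₃) ≤ n := (le_max_left _ _).trans hn'
  have hDn : |(D : ℝ) - δ * n| ≤ min η₁ (min η₂ η₃) * n :=
    hDn'.trans (mul_le_mul_of_nonneg_right (min_le_left _ _) hn0)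
  have u1 := h4 n D ((le_max_right _ _).trans hn') hD
    (hDn'.trans (mul_le_mul_of_nonneg_right (min_le_right _ _) hn0))
  have g1 : n₁ ≤ n := (le_max_left _ _).trans hn
  have g2 : n₂ ≤ n := ((le_max_left _ _).trans (le_max_right _ _)).trans hn
  have g3 : n₃ ≤ n := ((le_max_right _ _).trans (le_max_right _ _)).trans hn
  have d1 := hDn.trans (mul_le_mul_of_nonneg_right (min_le_left η₁ (min η₂ η₃)) hn0)
  have d2 := hDn.trans (mul_le_mul_of_nonneg_right
    ((min_le_right η₁ (min η₂ η₃)).trans (min_le_left η₂ η₃)) hn0)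
  have d3 := hDn.trans (mul_le_mul_of_nonneg_right
    ((min_le_right η₁ (min η₂ η₃)).trans (min_le_right η₂ η₃)) hn0)
  obtain ⟨p1, p2, p3⟩ := h1 n D g1 hD d1
  obtain ⟨q1, q2⟩ := h2 n D g2 hD d2
  have r1 := h3 n D g3 hD d3
  have m1 : Real.exp (-(a₁ * n)) ≤ Real.exp (-(a * n)) := by
    rw [Real.exp_le_exp]
    have := mul_le_mul_of_nonneg_right (min_le_left a₁ (min a₂ a₃)) hn0
    linarith
  have m2 : Real.exp (-(a₂ * n)) ≤ Real.exp (-(a * n)) := by
    rw [Real.exp_le_exp]
    have := mul_le_mul_of_nonneg_right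
      ((min_le_right a₁ (min a₂ a₃)).trans (min_le_left a₂ a₃)) hn0
    linarith
  have m3 : Real.exp (-(a₃ * n)) ≤ Real.exp (-(a * n)) := by
    rw [Real.exp_le_exp]
    have := mul_le_mul_of_nonneg_right
      ((min_le_right a₁ (min a₂ a₃)).trans (min_le_right a₂ a₃)) hn0
    linarith
  have hb : Pool.Agent.N549.CG.V n D = ball n D := rfl
  have hV : (0 : ℝ) < ball n D := by exact_mod_cast Pool.Agent.N27.CG.Cnt.V_pos n D
  rw [hb] at p1 p2 p3 q1 q2 r1 u1
  have hZ : ∀ s : ℝ, 0 < s → 0 < Pool.Agent.N549.CG.ZC n D (s * Real.exp s / ball n D) := by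
    intro s hs
    rw [← Z_eq]
    have hz : 0 < s * Real.exp s / ball n D := by positivity
    unfold Z
    refine Finset.sum_pos (fun C _ => by positivity) ⟨∅, ?_⟩
    simp [IsCode]
  have hprod : ∀ (s : ℝ) (x y : Word n), 0 < s →
      PC n D (s * Real.exp s / ball n D) x x / Pool.Agent.N549.CG.ZC n D (s * Real.exp s / ball n D) *
      (PC n D (s * Real.exp s / ball n D) y y /
        Pool.Agent.N549.CG.ZC n D (s * Real.exp s / ball n D)) =
      PC n D (s * Real.exp s / ball n D) x x * PC n D (s * Real.exp s / ball n D) y y /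
        Pool.Agent.N549.CG.ZC n D (s * Real.exp s / ball n D) ^ 2 := by
    intro s x y hs
    have := (hZ s hs).ne'
    field_simp
  have hPC : ∀ (s : ℝ) (x y : Word n), 0 < s → 0 ≤ PC n D (s * Real.exp s / ball n D) x y := by
    intro s x y hs
    unfold PC
    exact Finset.sum_nonneg fun C _ => by positivity
  refine ⟨fun s hs hsX => ?_, fun k hk hkX => ?_, fun k hk => ?_, fun s hs => ?_,
    fun s hs hsX x y hxy => ?_, fun s hs hsX x y hxy => ?_, fun s hs hsX B hB => ?_⟩
  · obtain ⟨w1, w2⟩ := p1 s hs hsX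
    rw [size_eq, Z_eq]
    exact ⟨w1.trans (mul_le_mul_of_nonneg_right m1 hs.le),
      w2.trans (mul_le_mul_of_nonneg_right m1 hs.le)⟩
  · obtain ⟨w1, w2⟩ := p2 k (m1.trans hk) hkX
    rw [num_eq]
    exact ⟨w1, w2.trans (mul_le_mul_of_nonneg_right m1 (by positivity))⟩
  · rw [num_eq]
    exact p3 k hk
  · rw [size_eq]
    exact u1 s hs
  · have w := q1 s hs hsX x y hxy
    have hz := hZ s hs
    rw [prob_eq, prob_eq, prob_eq, hprod s x y hs]
    rw [← mul_div_assoc, div_le_div_iff₀ (by positivity) hz]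
    have w2 : (1 - Real.exp (-(a * n))) * (PC n D (s * Real.exp s / ball n D) x x *
        PC n D (s * Real.exp s / ball n D) y y) ≤ PC n D (s * Real.exp s / ball n D) x y *
          Pool.Agent.N549.CG.ZC n D (s * Real.exp s / ball n D) := by
      refine le_trans (mul_le_mul_of_nonneg_right (by linarith) ?_) w
      exact mul_nonneg (hPC _ _ _ hs) (hPC _ _ _ hs)
    have w3 := mul_le_mul_of_nonneg_right w2 hz.le
    refine w3.trans (le_of_eq ?_)
    ring
  · have w := q2 s hs hsX x y hxy
    have hz := hZ s hs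
    rw [prob_eq, prob_eq, prob_eq, hprod s x y hs]
    rw [← mul_div_assoc, div_le_div_iff₀ hz (by positivity)]
    have w2 : PC n D (s * Real.exp s / ball n D) x y *
          Pool.Agent.N549.CG.ZC n D (s * Real.exp s / ball n D) ≤
        (1 + Real.exp (-(a * n))) * (PC n D (s * Real.exp s / ball n D) x x *
        PC n D (s * Real.exp s / ball n D) y y) := by
      refine w.trans (mul_le_mul_of_nonneg_right (by linarith) ?_)
      exact mul_nonneg (hPC _ _ _ hs) (hPC _ _ _ hs)
    have w3 := mul_le_mul_of_nonneg_right w2 hz.le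
    refine le_trans (le_of_eq ?_) w3
    ring
  · have w := r1 s (m3.trans hs) hsX B hB
    rw [pairs_eq, size_eq]
    exact w.trans (mul_le_mul_of_nonneg_right m3 (by positivity))

end Pool.Agent.Results.MP_0430e4_lc.RandomCodes
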